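import Pool.Agent.K.MP_25cc86_al.C6

universe u

theorem Pool.Agent.Results.MP_25cc86_al.Full.result (n : ℕ) (G : Type u) [Group G]
    (x : Fin n → G) (h1 : ∀ i, orderOf (x i) = 2) (h2 : Subgroup.closure (Set.range x) = ⊤)
    (h3 : ∀ a b : G, orderOf a = 2 → orderOf b = 2 → (a * b) ^ 4 = 1) :
    ∃ k : ℕ, Nat.card G = 2 ^ k := by
  have key := (Pool.Agent.P.MP_25cc86_al.isC_of_pow h3).finite_two (fun p hp q hq h => ?_) x
    (fun i => ?_) h2
  · have := key.1
    exact IsPGroup.iff_card.1 key.2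
  · have hp' : p * p = 1 := hp
    have hq' : q * q = 1 := hq
    change p * q * (p * q) = 1
    rw [mul_assoc, ← mul_assoc q, ← h.eq, mul_assoc, hq', mul_one, hp']
  · have := pow_orderOf_eq_one (x i)
    rwa [h1 i, pow_two] at this
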