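import Pool.Agent.P.MP_25cc86_al.NoLaw

theorem Pool.Agent.Results.MP_25cc86_al.NoLaw.result (k : ℕ) (w : FreeGroup (Fin k))
    (hw : w ≠ 1) :
    ∃ (n : ℕ) (G : Type) (_ : Group G) (x : Fin n → G), (∀ i, orderOf (x i) = 2) ∧
      Subgroup.closure (Set.range x) = ⊤ ∧
      (∀ a b : G, orderOf a = 2 → orderOf b = 2 → (a * b) ^ 4 = 1) ∧
      ∃ φ : FreeGroup (Fin k) →* G, φ w ≠ 1 :=
  Pool.Agent.P.MP_25cc86_al.Nl.no_law w hw

/-- The exponent of these groups is unbounded. -/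
theorem Pool.Agent.Results.MP_25cc86_al.NoLaw.exponent (m : ℕ) (hm : m ≠ 0) :
    ∃ (n : ℕ) (G : Type) (_ : Group G) (x : Fin n → G), (∀ i, orderOf (x i) = 2) ∧
      Subgroup.closure (Set.range x) = ⊤ ∧
      (∀ a b : G, orderOf a = 2 → orderOf b = 2 → (a * b) ^ 4 = 1) ∧ ∃ g : G, g ^ m ≠ 1 := by
  obtain ⟨n, G, _, x, h1, h2, h3, φ, h4⟩ := result 1 (FreeGroup.of 0 ^ m) fun h => by
    have := congrArg (fun w => Multiplicative.toAdd
      (FreeGroup.lift (fun _ => Multiplicative.ofAdd (1 : ℤ)) w)) h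
    simp [hm] at this
  exact ⟨n, G, inferInstance, x, h1, h2, h3, φ (FreeGroup.of 0), by rwa [map_pow] at h4⟩

/-- The derived length of these groups is unbounded. -/
theorem Pool.Agent.Results.MP_25cc86_al.NoLaw.derived (d : ℕ) :
    ∃ (n : ℕ) (G : Type) (_ : Group G) (x : Fin n → G), (∀ i, orderOf (x i) = 2) ∧
      Subgroup.closure (Set.range x) = ⊤ ∧
      (∀ a b : G, orderOf a = 2 → orderOf b = 2 → (a * b) ^ 4 = 1) ∧
      derivedSeries G d ≠ ⊥ := by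
  let e := (Fintype.equivFin (Equiv.Perm (Fin 5))).symm
  have hs : Function.Surjective (FreeGroup.lift e) := fun g =>
    ⟨FreeGroup.of (e.symm g), by rw [FreeGroup.lift_apply_of, e.apply_symm_apply]⟩
  have hd : derivedSeries (FreeGroup (Fin (Fintype.card (Equiv.Perm (Fin 5))))) d ≠ ⊥ := fun h =>
    Equiv.Perm.not_isSolvable_fin_5 (@Group.isSolvable_of_surjective _ _ _ _ _ hs ⟨d, h⟩)
  obtain ⟨⟨w, hw⟩, hw1⟩ := Subgroup.ne_bot_iff_exists_ne_one.1 hd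
  obtain ⟨n, G, _, x, h1, h2, h3, φ, h4⟩ := result _ w fun h => hw1 (Subtype.ext h)
  refine ⟨n, G, inferInstance, x, h1, h2, h3, fun h => h4 ?_⟩
  exact Subgroup.mem_bot.1 (h ▸ map_derivedSeries_le_derivedSeries φ d ⟨w, hw, rfl⟩)
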